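import Pool.Agent.MP_bf58c1_co.Morph

/-!
Negative answer to the question whether every shortest-path triangulation of the sphere has a
sinkable rotation.

The example has 20 vertices, 54 edges and 36 faces and is invariant under the 12 rotations of a
regular tetrahedron.  Its vertices lie in the directions of the 12 vectors obtained from
`(-1, -10, -3)` by cyclic shifts and even sign changes, and of the 8 vectors `(±1, ±1, ±1)`.

Idea of the proof.  Let `N` be the direction which the rotation `R` maps to the north pole.  A
longitudinal morph moves only the heights of the vertices over their fixed horizontal directions.
If a face `(i, j, k)` does not contain `N` in its interior, then its orientation is still positive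
at the end of a morph that sinks all vertices (`not_sinkable_example`).  This gives linear
inequalities for the final (negative) heights.  They are infeasible for every `N`: the sphere of
directions `N` is cut into triangular cells, on each of which fixed nonnegative integer weights of
the faces give a Farkas certificate (`no_heights`).  The cells and weights are checked by the
kernel.
-/

namespace Pool.Agent.Results.MP_bf58c1_co.NoSinkableRotation

open Pool.Agent.MP_bf58c1_co

/-- There is a shortest-path triangulation of the sphere none of whose rotations is sinkable. -/
theorem result : ∃ (n : ℕ) (G : SimpleGraph (Fin n)) (p : Fin n → S2), IsSPT G p ∧
    ∀ A : Matrix.specialOrthogonalGroup (Fin 3) ℝ, ¬ Sinkable G (rotate A p) :=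
  ⟨20, gr, pos, isSPT_example, fun A => not_sinkable_example A⟩

end Pool.Agent.Results.MP_bf58c1_co.NoSinkableRotation
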